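import Pool.Agent.Helper88_PF.Density

/-!
# `N(u)` has a natural density for every real `u`

`D n` is the maximal density of a product-free subset of `ℤ/nℤ`, and `NSet u = N(u)` is the set of
positive integers `n` with `D n > u`. It was known that `N(u)` has a logarithmic density, and that
it would have a natural density for every `u` if its primitive elements were squarefull for
`1/2 ≤ u < 1`. Here the existence of the natural density is proved unconditionally.

Proof idea: there is a function `Dstar` with `D (s t) ≤ Dstar s` for every squarefree `t` coprime
to `s`, and `D (p s) → Dstar s` as the prime `p` tends to infinity (`Dstar s` is the maximum of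
`(|X| + |Y|) / (2 s)` over the pairs of subsets of `ℤ/sℤ` with `XX ∩ X = XY ∩ Y = YY ∩ X = ∅`). So
for a fixed squarefull `s`, either no or all but finitely many squarefree `t` coprime to `s`
satisfy `s t ∈ N(u)`.
-/

namespace Pool.Agent.Results.MP_e2a315_nt.NaturalDensity

open Pool.Agent.Helper88_PF

/-- For every real `u`, the set `N(u) = {n ≥ 1 : D n > u}` has a natural density. -/
theorem result : ∀ u : ℝ, ∃ δ : ℝ, HasNaturalDensity (NSet u) δ :=
  exists_natural_density

end Pool.Agent.Results.MP_e2a315_nt.NaturalDensity
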