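import Pool.Agent.Helper88_PF.Approx

/-!
# The product-free density is nearly determined by the squarefull part

If `t` is squarefree and coprime to `s`, then `D (s t) ≤ D s + 1 / (2 q ^ a)` for every odd
prime power `q ^ a > 1` dividing `s` (and `D s ≤ D (s t)` always).
-/

namespace Pool.Agent.Results.MP_e2a315_nt.NearlySquarefull

open Pool.Agent.Helper88_PF

/-- For `s ≥ 1`, `t` squarefree and coprime to `s`, and every odd prime power `q ^ a` with `a ≥ 1`
dividing `s`: `D (s t) ≤ D s + 1 / (2 q ^ a)`. -/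
theorem result (s t : ℕ) (hs : s ≠ 0) (ht : Squarefree t) (hst : Nat.Coprime s t) (q a : ℕ)
    (hq : q.Prime) (hq2 : q ≠ 2) (ha : a ≠ 0) (hqs : q ^ a ∣ s) :
    D (s * t) ≤ D s + 1 / (2 * (q : ℝ) ^ a) :=
  (D_mul_le_Dstar hs ht hst).trans (Dstar_le_add hs hq hq2 ha hqs)

end Pool.Agent.Results.MP_e2a315_nt.NearlySquarefull
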