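import Pool.Agent.Helper88_PF.Reduction

/-!
# A criterion for the primitive elements of `N(u)` to be squarefull

`D n` is the maximal density of a product-free subset of `ℤ/nℤ`. For each positive integer `s` let
`Dstar s` be the maximum of `(|X| + |Y|) / (2 s)` over the pairs `(X, Y)` of subsets of `ℤ/sℤ` with
`XX ∩ X = ∅`, `XY ∩ Y = ∅` and `YY ∩ X = ∅`. The statement that all primitive elements of `N(u)`
are squarefull for all `u` in `[1/2, 1)` is equivalent to the inequality
`Dstar s ≤ max (1/2) (D s)` for all squarefull `s`.
-/

namespace Pool.Agent.Results.MP_e2a315_nt.SquarefullCriterion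

open Pool.Agent.Helper88_PF

/-- All primitive elements of `N(u)`, `1/2 ≤ u < 1`, are squarefull if and only if
`Dstar s ≤ max (1/2) (D s)` for every squarefull `s`. -/
theorem result :
    (∀ u : ℝ, 1 / 2 ≤ u → u < 1 → ∀ n, IsPrimitive u n → Squarefull n) ↔
      ∀ s, Squarefull s → Dstar s ≤ max (1 / 2) (D s) :=
  reduction

end Pool.Agent.Results.MP_e2a315_nt.SquarefullCriterion
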